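import Pool.Agent.H7.CP.Targets

/-!
# (LOS) the theorem of Los for normal measures (MP_e37c09_lc)
-/

open Ordinal Cardinal Order Set
open scoped ZFSet

universe u

namespace Pool.Agent.H35.CP.LOS

open _root_.HD
open Pool.Agent.H63.HDA.LI (doA dsA os_congr)
open Pool.Agent.H64.HDA.DN (nm_ne nm_not nm_ext do_sInf)

/-! ## Almost all points -/

/-- `P b` for `U`-almost all `b` -/
def AA (κ : Ordinal.{u}) (U : ZFSet.{u}) (P : Ordinal.{u} → Prop) : Prop :=
  ∃ Z : Set Ordinal.{u}, DS Z ∧ os κ Z ∈ U ∧ ∀ b < κ, b ∈ Z → P b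

section

variable {κ : Ordinal.{u}} {U : ZFSet.{u}} {P Q : Ordinal.{u} → Prop}

theorem AA.of (hd : DS {b | P b}) (h : os κ {b | P b} ∈ U) : AA κ U P :=
  ⟨_, hd, h, fun _ _ hb => hb⟩

theorem AA.mono (h : AA κ U P) (hPQ : ∀ b < κ, P b → Q b) : AA κ U Q := by
  obtain ⟨Z, h1, h2, h3⟩ := h
  exact ⟨Z, h1, h2, fun b hb hz => hPQ b hb (h3 b hb hz)⟩

theorem AA.and (hU : NMe κ U) (h : AA κ U P) (h' : AA κ U Q) :
    AA κ U fun b => P b ∧ Q b := by
  obtain ⟨Z, h1, h2, h3⟩ := h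
  obtain ⟨Z', g1, g2, g3⟩ := h'
  exact ⟨Z ∩ Z', DO.and h1 g1, hU.int _ _ h1 g1 h2 g2, fun b hb hz =>
    ⟨h3 b hb hz.1, g3 b hb hz.2⟩⟩

theorem AA.ex (hU : NMe κ U) (h : AA κ U P) : ∃ b < κ, P b := by
  obtain ⟨Z, h1, h2, h3⟩ := h
  obtain ⟨b, hb, hz⟩ := nm_ne hU h1 h2
  exact ⟨b, hb, h3 b hb hz⟩

theorem AA.mem (hU : NMe κ U) (hd : DS {b | P b}) (h : AA κ U P) : os κ {b | P b} ∈ U := by
  obtain ⟨Z, h1, h2, h3⟩ := h
  exact hU.up _ _ h1 hd h2 h3

theorem AA.em (hU : NMe κ U) (hd : DS {b | P b}) : AA κ U P ∨ AA κ U fun b => ¬ P b := by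
  by_cases h : os κ {b | P b} ∈ U
  · exact Or.inl (AA.of hd h)
  · exact Or.inr (AA.of (P := fun b => ¬ P b) (DO.not hd) (nm_not hU hd h))

theorem AA.gt (hU : NMe κ U) {a : Ordinal.{u}} (ha : a < κ) : AA κ U fun b => a < b :=
  AA.of (DO.gtc 0 a) (hU.gt a ha)

theorem AA.nrm (hU : NMe κ U) {R : Ordinal.{u} → Ordinal.{u} → Prop} (hR : DR R)
    (h : ∀ a < κ, AA κ U fun b => R a b) : AA κ U fun b => ∀ a < b, R a b := by
  refine AA.of (DO.allLt (R := fun a w => R a (w 0)) 0 (hR.s2 0 1)) (hU.nrm R hR fun a ha => ?_)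
  exact (h a ha).mem hU (DO.sect1 hR a)

theorem AA.choose (hU : NMe κ U) {F : Ordinal.{u} → Ordinal.{u} → Prop} (hF : DR F)
    (h : AA κ U fun b => ∃ e, F b e) : ∃ x : Ordinal.{u} → Ordinal.{u},
      (DR fun a b => b = x a) ∧ AA κ U fun b => F b (x b) := by
  refine ⟨fun b => sInf {e | F b e}, ?_, h.mono fun b _ hb => csInf_mem (s := {e | F b e}) hb⟩
  exact do_sInf (S := fun z w => F (w 0) z) (DO.s2 (X := F) hF 1 0) 1

theorem AA.lim (hU : NMe κ U) : AA κ U fun b => IsSuccLimit b := by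
  have h0 : (0 : Ordinal.{u}) < κ := by
    have := hU.lim.bot_lt
    simpa using this
  have hd : DR fun a b => succ a < b := by
    have h1 : DO fun w : ℕ → Ordinal.{u} => ∃ z, z = succ (w 0) ∧ z < w 1 :=
      DO.ex (R := fun z w => z = succ (w 0) ∧ z < w 1)
        ((Pool.Agent.H64.HDA.DN.do_succ 0 1).and (DO.lt 0 2))
    exact h1.congr fun w => by simp
  have h1 := AA.nrm hU hd fun a ha => AA.gt hU (hU.lim.succ_lt ha)
  refine (h1.and hU (AA.gt hU h0)).mono fun b _ hb => ?_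
  rw [isSuccLimit_iff, isSuccPrelimit_iff_succ_lt]
  exact ⟨by simpa using hb.2.ne', hb.1⟩

end

/-! ## The limit of a family of relations -/

section

variable {en : Ordinal.{u} → ZFSet.{u}}

/-- the relation with code `e` -/
def rl (en : Ordinal.{u} → ZFSet.{u}) (e i a : Ordinal.{u}) : Prop := a ∈ E2 en e i

theorem do_rl (hen : EN en) (i j k : ℕ) : DO fun w => rl en (w i) (w j) (w k) :=
  DO.s3 (X := fun a b c => a ∈ E2 en c b) (t_EA en hen).2.1 k j i

theorem do_fn {x : Ordinal.{u} → Ordinal.{u}} (hx : DR fun a b => b = x a)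
    {R : Ordinal.{u} → (ℕ → Ordinal.{u}) → Prop}
    (hR : DO fun w => R (w 0) (fun n => w (n + 1))) (i : ℕ) : DO fun w => R (x (w i)) w :=
  (DO.ex (R := fun d w => d = x (w i) ∧ R d w)
    ((DO.s2 (X := fun a b => b = x a) hx (i + 1) 0).and hR)).congr fun w => by simp

theorem rlim (hen : EN en) {κ : Ordinal.{u}} {U : ZFSet.{u}} (hU : NMe κ U)
    {x : Ordinal.{u} → Ordinal.{u}} (hx : DR fun a b => b = x a) :
    ∃ R : Ordinal.{u} → Ordinal.{u} → Prop, DR R ∧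
      AA κ U fun b => ∀ i < b, ∀ a < b, (R i a ↔ rl en (x b) i a) := by
  have h1 : DO fun w => rl en (x (w 0)) (w 1) (w 2) :=
    do_fn hx (R := fun d w => rl en d (w 1) (w 2)) (do_rl hen 0 2 3) 0
  let R : Ordinal.{u} → Ordinal.{u} → Prop := fun i a => os κ {b | rl en (x b) i a} ∈ U
  have hR : DR R := by
    have h2 : DO fun w => os (w 0) {b | rl en (x b) (w 1) (w 2)} ∈ U :=
      DO.setArg (R := fun s _ => s ∈ U) (DZ.od (R := fun b v => v 0 ∈ b) hU.hod.od (DZ.mem 1 0))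
        (X := fun b w => rl en (x b) (w 1) (w 2))
        (DO.s3 (X := fun b i a => rl en (x b) i a) h1 0 2 3) 0
    exact DO.sub (R := fun k w => os k {b | rl en (x b) (w 0) (w 1)} ∈ U) κ h2
  refine ⟨R, hR, ?_⟩
  have h3 : DO fun w => (R (w 0) (w 2) ↔ rl en (x (w 1)) (w 0) (w 2)) :=
    (DO.s2 (X := R) hR 0 2).iff (DO.s3 (X := fun b i a => rl en (x b) i a) h1 1 0 2)
  have key : ∀ i a, AA κ U fun b => (R i a ↔ rl en (x b) i a) := by
    intro i a
    have hd : DS {b | rl en (x b) i a} :=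
      DO.sub (R := fun i w => rl en (x (w 0)) i a) i
        (DO.sub (R := fun a w => rl en (x (w 1)) (w 0) a) a
          (DO.s3 (X := fun b i a => rl en (x b) i a) h1 2 1 0))
    by_cases h : R i a
    · exact (AA.of hd h).mono fun b _ hb => iff_of_true h hb
    · refine (AA.of (P := fun b => ¬ rl en (x b) i a) (DO.not hd) (nm_not hU hd h)).mono
        fun b _ hb => iff_of_false h hb
  refine AA.nrm hU (R := fun i b => ∀ a < b, (R i a ↔ rl en (x b) i a)) ?_ fun i _ => ?_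
  · exact DO.allLt (R := fun a w => (R (w 0) a ↔ rl en (x (w 1)) (w 0) a)) 1
      (DO.s3 (X := fun i b a => (R i a ↔ rl en (x b) i a)) h3 1 2 0)
  · refine AA.nrm hU (R := fun a b => (R i a ↔ rl en (x b) i a)) ?_ fun a _ => key i a
    exact DO.sub (R := fun i w => (R i (w 0) ↔ rl en (x (w 1)) i (w 0))) i
      (DO.s3 (X := fun i b a => (R i a ↔ rl en (x b) i a)) h3 0 2 1)

/-! ## The properties of a measure for one relation -/

/-- the properties of a normal measure for the sections of `R` -/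
def Go (en : Ordinal.{u} → ZFSet.{u}) (c : Ordinal.{u} → Ordinal.{u}) (b : Ordinal.{u})
    (R : Ordinal.{u} → Ordinal.{u} → Prop) : Prop :=
  (os b {a | R 0 a} ∈ en (c b) ↔ ¬ os b {a | ¬ R 0 a} ∈ en (c b)) ∧
  (os b {a | R 0 a} ∈ en (c b) → os b {a | R 1 a} ∈ en (c b) →
    (∀ a < b, R 0 a → R 1 a → R 2 a) → os b {a | R 2 a} ∈ en (c b)) ∧
  ((∀ i < b, os b {a | R i a} ∈ en (c b)) → os b {a | ∀ i < a, R i a} ∈ en (c b))

theorem go_congr {c : Ordinal.{u} → Ordinal.{u}} {b : Ordinal.{u}} (h2 : 2 < b)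
    {R R' : Ordinal.{u} → Ordinal.{u} → Prop} (h : ∀ i < b, ∀ a < b, (R i a ↔ R' i a)) :
    Go en c b R ↔ Go en c b R' := by
  have h1 : 1 < b := lt_trans (by norm_num) h2
  have h0 : 0 < b := lt_trans (by norm_num) h1
  have e : ∀ i < b, os b {a | R i a} = os b {a | R' i a} := fun i hi => os_congr fun a ha => h i hi a ha
  have e' : os b {a | ¬ R 0 a} = os b {a | ¬ R' 0 a} :=
    os_congr fun a ha => not_congr (h 0 h0 a ha)
  have e'' : os b {a | ∀ i < a, R i a} = os b {a | ∀ i < a, R' i a} :=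
    os_congr fun a ha => forall₂_congr fun i hi => h i (hi.trans ha) a ha
  have g : (∀ a < b, R 0 a → R 1 a → R 2 a) ↔ ∀ a < b, R' 0 a → R' 1 a → R' 2 a :=
    forall₂_congr fun a ha => by rw [h 0 h0 a ha, h 1 h1 a ha, h 2 h2 a ha]
  have g' : (∀ i < b, os b {a | R i a} ∈ en (c b)) ↔ ∀ i < b, os b {a | R' i a} ∈ en (c b) :=
    forall₂_congr fun i hi => by rw [e i hi]
  unfold Go
  rw [e 0 h0, e 1 h1, e 2 h2, e', e'', g, g']

theorem do_go (hen : EN en) {c : Ordinal.{u} → Ordinal.{u}} (hc : DR fun a b => b = c a) :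
    DR fun b e => Go en c b (rl en e) := by
  have A : DO fun w => os (w 0) {a | rl en (w 1) (w 2) a} ∈ en (c (w 0)) :=
    doA hen hc (X := fun a w => rl en (w 1) (w 2) a) (do_rl hen 2 3 0) 0 0
  have A' : DO fun w => os (w 0) {a | ¬ rl en (w 1) (w 2) a} ∈ en (c (w 0)) :=
    doA hen hc (X := fun a w => ¬ rl en (w 1) (w 2) a) (do_rl hen 2 3 0).not 0 0
  have B : ∀ i, DO fun w => os (w 0) {a | rl en (w 1) i a} ∈ en (c (w 0)) := fun i =>
    DO.sub (R := fun i w => os (w 0) {a | rl en (w 1) i a} ∈ en (c (w 0))) i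
      (DO.s3 (X := fun b e i => os b {a | rl en e i a} ∈ en (c b)) A 1 2 0)
  have B' : ∀ i, DO fun w => os (w 0) {a | ¬ rl en (w 1) i a} ∈ en (c (w 0)) := fun i =>
    DO.sub (R := fun i w => os (w 0) {a | ¬ rl en (w 1) i a} ∈ en (c (w 0))) i
      (DO.s3 (X := fun b e i => os b {a | ¬ rl en e i a} ∈ en (c b)) A' 1 2 0)
  have C : ∀ i, DO fun w => rl en (w 2) i (w 0) := fun i =>
    DO.sub (R := fun i w => rl en (w 2) i (w 0)) i (do_rl hen 3 0 1)
  have D : DO fun w => ∀ a < w 0, rl en (w 1) 0 a → rl en (w 1) 1 a → rl en (w 1) 2 a :=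
    DO.allLt (R := fun a w => rl en (w 1) 0 a → rl en (w 1) 1 a → rl en (w 1) 2 a) 0
      ((C 0).imp ((C 1).imp (C 2)))
  have F : DO fun w => ∀ i < w 0, os (w 0) {a | rl en (w 1) i a} ∈ en (c (w 0)) :=
    DO.allLt (R := fun i w => os (w 0) {a | rl en (w 1) i a} ∈ en (c (w 0))) 0
      (DO.s3 (X := fun b e i => os b {a | rl en e i a} ∈ en (c b)) A 1 2 0)
  have G : DO fun w => os (w 0) {a | ∀ i < a, rl en (w 1) i a} ∈ en (c (w 0)) :=
    doA hen hc (X := fun a w => ∀ i < a, rl en (w 1) i a)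
      (DO.allLt (R := fun i w => rl en (w 2) i (w 0)) 0 (do_rl hen 3 0 1)) 0 0
  exact ((B 0).iff (B' 0).not).and (((B 0).imp ((B 1).imp (D.imp (B 2)))).and (F.imp G))

theorem go_fix (hen : EN en) {c : Ordinal.{u} → Ordinal.{u}} (hc : DR fun a b => b = c a)
    {κ : Ordinal.{u}} {U W : ZFSet.{u}} (hU : NMe κ U) (hW : NMe κ W)
    (hUW : ∀ X : Set Ordinal.{u}, DS X → (os κ X ∈ W ↔ os κ {b | os b X ∈ en (c b)} ∈ U))
    {R : Ordinal.{u} → Ordinal.{u} → Prop} (hR : DR R) : AA κ U fun b => Go en c b R := by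
  have tr : ∀ X : Set Ordinal.{u}, DS X → (os κ X ∈ W ∧ AA κ U fun b => os b X ∈ en (c b)) ∨
      (os κ X ∉ W ∧ AA κ U fun b => ¬ os b X ∈ en (c b)) := by
    intro X hX
    by_cases h : os κ X ∈ W
    · exact Or.inl ⟨h, AA.of (dsA hen hc hX) ((hUW X hX).1 h)⟩
    · refine Or.inr ⟨h, (AA.em hU (dsA hen hc hX)).resolve_left fun h' => h ?_⟩
      exact (hUW X hX).2 (h'.mem hU (dsA hen hc hX))
  have hS : ∀ i, DS {a | R i a} := DO.sect1 hR
  have hS' : DS {a | ¬ R 0 a} := (hS 0).not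
  refine AA.and hU ?_ (AA.and hU ?_ ?_)
  · have hult : os κ {a | R 0 a} ∈ W ↔ os κ {a | ¬ R 0 a} ∉ W := hW.ult _ (hS 0)
    rcases tr _ (hS 0) with ⟨h1, h2⟩ | ⟨h1, h2⟩ <;> rcases tr _ hS' with ⟨h3, h4⟩ | ⟨h3, h4⟩
    · exact absurd h3 (hult.1 h1)
    · exact (h2.and hU h4).mono fun b _ h => iff_of_true h.1 h.2
    · exact (h2.and hU h4).mono fun b _ h => iff_of_false h.1 (not_not.2 h.2)
    · exact absurd (hult.2 h3) h1
  · rcases tr _ (hS 0) with ⟨h1, h2⟩ | ⟨h1, h2⟩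
    swap
    · exact h2.mono fun b _ h h' => absurd h' h
    rcases tr _ (hS 1) with ⟨h3, h4⟩ | ⟨h3, h4⟩
    swap
    · exact h4.mono fun b _ h _ h' => absurd h' h
    by_cases h5 : ∀ a < κ, R 0 a → R 1 a → R 2 a
    · have h6 : os κ {a | R 2 a} ∈ W :=
        hW.up ({a | R 0 a} ∩ {a | R 1 a}) _ ((hS 0).and (hS 1)) (hS 2)
          (hW.int _ _ (hS 0) (hS 1) h1 h3) fun a ha h => h5 a ha h.1 h.2
      rcases tr _ (hS 2) with ⟨h7, h8⟩ | ⟨h7, h8⟩
      · exact h8.mono fun b _ h _ _ _ => h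
      · exact absurd h6 h7
    · push Not at h5
      obtain ⟨a, ha, g0, g1, g2⟩ := h5
      exact (AA.gt hU ha).mono fun b _ hb _ _ h => absurd (h a hb g0 g1) g2
  · by_cases h5 : ∀ i < κ, os κ {a | R i a} ∈ W
    · have h6 := hW.nrm R hR h5
      have hd : DS {b | ∀ a < b, R a b} := DO.allLt (R := fun a w => R a (w 0)) 0 (hR.s2 0 1)
      rcases tr _ hd with ⟨h7, h8⟩ | ⟨h7, h8⟩
      · exact h8.mono fun b _ h _ => h
      · exact absurd h6 h7
    · push Not at h5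
      obtain ⟨i, hi, h6⟩ := h5
      rcases tr _ (hS i) with ⟨h7, h8⟩ | ⟨h7, h8⟩
      · exact absurd h7 h6
      · exact ((AA.gt hU hi).and hU h8).mono fun b _ hb h => absurd (h i hb.1) hb.2

theorem go_all (hen : EN en) {c : Ordinal.{u} → Ordinal.{u}} (hc : DR fun a b => b = c a)
    {κ : Ordinal.{u}} {U W : ZFSet.{u}} (hU : NMe κ U) (hW : NMe κ W)
    (hUW : ∀ X : Set Ordinal.{u}, DS X → (os κ X ∈ W ↔ os κ {b | os b X ∈ en (c b)} ∈ U)) :
    AA κ U fun b => ∀ e, Go en c b (rl en e) := by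
  have hF := do_go hen hc
  have hd : DS {b | ∀ e, Go en c b (rl en e)} :=
    DO.all (R := fun e w => Go en c (w 0) (rl en e))
      (DO.s2 (X := fun b e => Go en c b (rl en e)) hF 1 0)
  refine (AA.em hU hd).resolve_right fun h => ?_
  obtain ⟨x, hx, h1⟩ := AA.choose hU (F := fun b e => ¬ Go en c b (rl en e)) hF.not
    (h.mono fun b _ hb => by push Not at hb; exact hb)
  obtain ⟨R, hR, h2⟩ := rlim hen hU hx
  have h3 := go_fix hen hc hU hW hUW hR
  have h0 : (2 : Ordinal.{u}) < κ := by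
    have g0 : (0 : Ordinal.{u}) < κ := by
      have := hU.lim.bot_lt
      simpa using this
    have g1 := hU.lim.succ_lt (hU.lim.succ_lt g0)
    have e : (2 : Ordinal.{u}) = succ (succ 0) := by
      rw [Order.succ_eq_add_one, Order.succ_eq_add_one, zero_add]
      norm_num
    rw [e]
    exact g1
  obtain ⟨b, -, hb1, hb2, hb3, hb4⟩ := (h1.and hU (h2.and hU (h3.and hU (AA.gt hU h0)))).ex hU
  exact hb1 ((go_congr hb4 hb2).1 hb3)

/-! ## Sets and relations -/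

/-- the relation with the sections `X`, `Y`, `Z` -/
def T3 (X Y Z : Set Ordinal.{u}) (i a : Ordinal.{u}) : Prop :=
  (i = 0 → a ∈ X) ∧ (i = 1 → a ∈ Y) ∧ (i = 2 → a ∈ Z)

theorem dr_T3 {X Y Z : Set Ordinal.{u}} (hX : DS X) (hY : DS Y) (hZ : DS Z) :
    DR (T3 X Y Z) :=
  ((DO.eqc 0 0).imp (hX.s1 1)).and (((DO.eqc 0 1).imp (hY.s1 1)).and
    ((DO.eqc 0 2).imp (hZ.s1 1)))

theorem ne_01 : (0 : Ordinal.{u}) ≠ 1 := zero_ne_one
theorem ne_02 : (0 : Ordinal.{u}) ≠ 2 := (lt_trans (by norm_num : (0 : Ordinal.{u}) < 1) (by norm_num)).ne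
theorem ne_12 : (1 : Ordinal.{u}) ≠ 2 := (by norm_num : (1 : Ordinal.{u}) < 2).ne

theorem T3_0 {X Y Z : Set Ordinal.{u}} (a : Ordinal.{u}) : T3 X Y Z 0 a ↔ a ∈ X := by
  unfold T3
  simp [ne_01, ne_02]

theorem T3_1 {X Y Z : Set Ordinal.{u}} (a : Ordinal.{u}) : T3 X Y Z 1 a ↔ a ∈ Y := by
  unfold T3
  simp [ne_01.symm, ne_12]

theorem T3_2 {X Y Z : Set Ordinal.{u}} (a : Ordinal.{u}) : T3 X Y Z 2 a ↔ a ∈ Z := by
  unfold T3
  simp [ne_02.symm, ne_12.symm]

theorem nme_of (hen : EN en) {c : Ordinal.{u} → Ordinal.{u}} {b : Ordinal.{u}}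
    (hlim : IsSuccLimit b) (h2 : 2 < b) (hhod : HOD (en (c b)))
    (hsub : ∀ x ∈ en (c b), x ⊆ b.toZFSet) (hgt : ∀ a < b, os b {x | a < x} ∈ en (c b))
    (h : ∀ e, Go en c b (rl en e)) : NMe b (en (c b)) := by
  have hG : ∀ R, DR R → Go en c b R := by
    intro R hR
    obtain ⟨e, he⟩ := (t_EA en hen).2.2.2 R hR b
    refine (go_congr h2 fun i hi a ha => ?_).1 (h e)
    show a ∈ E2 en e i ↔ R i a
    rw [he]
    exact ⟨fun h => h.2.2, fun h => ⟨hi, ha, h⟩⟩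
  refine ⟨hlim, hhod, hsub, fun X hX => ?_, fun X Y hX hY h1 h3 => ?_,
    fun X Y hX hY h1 h3 => ?_, hgt, fun R hR h1 => (hG R hR).2.2 h1⟩
  · have h1 := (hG _ (dr_T3 hX hX hX)).1
    simp only [T3_0] at h1
    exact h1
  · have h4 := (hG _ (dr_T3 hX hX hY)).2.1
    simp only [T3_0, T3_1, T3_2] at h4
    exact h4 h1 h1 fun a ha h _ => h3 a ha h
  · have hXY : DS (X ∩ Y) := DO.and hX hY
    have h4 := (hG _ (dr_T3 hX hY hXY)).2.1
    simp only [T3_0, T3_1, T3_2] at h4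
    exact h4 h1 h3 fun a _ h h' => ⟨h, h'⟩

end

/-- (LOS) a normal measure which is the class of a function is the class of a function whose values
are normal measures. -/
theorem X : T_LSM.{u} := by
  intro en hen κ U W c hc hU hW hB hUW
  have h1 := go_all hen hc hU hW hUW
  have hgt : AA κ U fun b => ∀ a < b, os b {x | a < x} ∈ en (c b) := by
    refine AA.nrm hU (R := fun a b => os b {x | a < x} ∈ en (c b)) ?_ fun a ha => ?_
    · exact doA hen hc (X := fun x w => w 0 < x) (DO.lt 1 0) 1 1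
    · have hd : DS {x : Ordinal.{u} | a < x} := DO.gtc 0 a
      exact AA.of (dsA hen hc hd) ((hUW _ hd).1 (hW.gt a ha))
  have h2 : AA κ U fun b => NMe b (en (c b)) := by
    refine ((h1.and hU hgt).and hU (AA.lim hU)).mono fun b _ hb => ?_
    have h0 : (2 : Ordinal.{u}) < b := by
      have g0 : (0 : Ordinal.{u}) < b := by
        have := hb.2.bot_lt
        simpa using this
      have g1 := hb.2.succ_lt (hb.2.succ_lt g0)
      have e : (2 : Ordinal.{u}) = succ (succ 0) := by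
        rw [Order.succ_eq_add_one, Order.succ_eq_add_one, zero_add]
        norm_num
      rw [e]
      exact g1
    exact nme_of hen hb.2 h0 (hB b).1 (hB b).2 hb.1.2 hb.1.1
  have hN : os κ {b | NMe b (en (c b))} ∈ U :=
    h2.mem hU (Pool.Agent.H63.HDA.LI.dsN All.hmi hen hc)
  obtain ⟨g1, g2, g3⟩ := All.li en hen c hc κ U hU hN
  refine ⟨hN, ?_⟩
  have hE : ∀ e, DS (E en e) := fun e => OD.ds ((hen.od _).2 ⟨e, rfl⟩)
  have e : W = lmz en c κ U :=
    nm_ext hen hW g1 fun e => (hUW _ (hE e)).trans (g3 _ (hE e)).symm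
  rw [e]
  exact g2

end Pool.Agent.H35.CP.LOS
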